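import Mathlib
import Pool.Agent.H24.SG.Main
import Pool.Agent.H24.SG.NonSep
import Pool.Agent.H24.SG.Lower

/-!
# Strong Gurarii spaces of density `ℵ₁`: the threshold is between the dimensions one and two

* Q1: a strong Gurarii space has density at least the continuum. So there is none of density `ℵ₁`
  if the continuum hypothesis fails.
* Two-dimensional subspaces: if only the isometric embeddings of the spaces of dimension at most two
  extend to the spaces of dimension at most three, then already there are continuum many unit
  vectors with mutual distances at least one, and the density is at least the continuum.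
* One-dimensional subspaces: in ZFC, for every uncountable cardinal `κ`, there is a Banach space of
  density `κ` in which every isometric embedding of an at most one-dimensional space `E` extends to
  every separable space which contains `E`: the space of the odd continuous functions on the cube
  `[-1, 1]^κ`. For `κ = ℵ₁` this is optimal: the extension from dimension one to dimension two
  already implies that the density is at least `ℵ₁`.

Proof of the third part. Let `x` be an odd function of norm one. It depends on countably many
coordinates, and it takes all the values in `[-1, 1]`. Let `F` be separable, `x₀ ∈ F` a unit vector,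
`C` the unit ball of the dual of `F` with the weak* topology, and `C_s` the slice `{φ | φ x₀ = s}`.
The nearest point of `z` in `C_s`, for a suitable Hilbert norm, depends continuously on
`(s, z) ∈ [-1, 1] × [-1, 1]^ℕ`, and every point of `C_s` is obtained. The fresh coordinates of the
cube serve as `z`, and `s = x(k)`. This is a continuous odd map `Y` from the cube onto `C` with
`Y(k)(x₀) = x(k)`, and `v ↦ (k ↦ Y(k)(v))` is the extension.
-/

set_option autoImplicit false

open Set Cardinal

universe u

namespace Pool.Agent.Results.MP_47ceec_an.DimensionThreshold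

open Pool.Agent.H24.SG

theorem result :
    -- Q1
    ((∀ (X : Type u) [NormedAddCommGroup X] [NormedSpace ℝ X] [CompleteSpace X],
        StrongGurarii X → Cardinal.continuum.{u} ≤ density X) ∧
      (Cardinal.aleph.{u} 1 < Cardinal.continuum.{u} →
        ¬ ∃ (X : Type u) (_ : NormedAddCommGroup X) (_ : NormedSpace ℝ X) (_ : CompleteSpace X),
          StrongGurarii X ∧ density X = Cardinal.aleph.{u} 1)) ∧
    -- extension from dimension two to dimension three
    (∀ (X : Type u) [NormedAddCommGroup X] [NormedSpace ℝ X] [CompleteSpace X], Disp 2 3 X →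
      Cardinal.continuum.{u} ≤ density X ∧
        ∃ y : ℝ → X, (∀ s, ‖y s‖ = 1) ∧ ∀ s t, s ≠ t → 1 ≤ ‖y s - y t‖) ∧
    -- extension from dimension one
    (∀ κ : Cardinal.{u}, Cardinal.aleph.{u} 1 ≤ κ →
      ∃ (X : Type u) (_ : NormedAddCommGroup X) (_ : NormedSpace ℝ X) (_ : CompleteSpace X),
        DispSep 1 X ∧ (∀ n, Disp 1 n X) ∧ density X = κ) ∧
    (∀ (X : Type u) [NormedAddCommGroup X] [NormedSpace ℝ X] [CompleteSpace X], Disp 1 2 X →
      Cardinal.aleph.{u} 1 ≤ density X) := by
  have h23 : ∀ (X : Type u) [NormedAddCommGroup X] [NormedSpace ℝ X] [CompleteSpace X],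
      Disp 2 3 X → Cardinal.continuum.{u} ≤ density X ∧
        ∃ y : ℝ → X, (∀ s, ‖y s‖ = 1) ∧ ∀ s t, s ≠ t → 1 ≤ ‖y s - y t‖ := by
    intro X _ _ _ hX
    obtain ⟨y, hy1, hy⟩ := exists_family hX
    exact ⟨continuum_le_of_family hy, y, hy1, hy⟩
  refine ⟨⟨fun X _ _ _ hX => (h23 X (hX.disp 2 3)).1, ?_⟩, h23, ?_, ?_⟩
  · rintro h ⟨X, i1, i2, i3, hX, hd⟩
    exact absurd (h23 X (hX.disp 2 3)).1 (by rw [hd]; exact not_le.2 h)
  · intro κ hκ
    obtain ⟨X, i1, i2, i3, hX, hd⟩ := exists_space κ hκ
    exact ⟨X, i1, i2, i3, hX, fun n => hX.disp n, hd⟩
  · intro X _ _ _ hX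
    exact aleph_one_le_density hX

end Pool.Agent.Results.MP_47ceec_an.DimensionThreshold
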